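import Pool.Agent.N300.UN.Stubs

/-!
# UN/TT: partitions of unity and the approximate intertwiner
-/

set_option autoImplicit false

open scoped ComplexConjugate

noncomputable section

namespace Pool.Agent.N194.UN

open Pool.Agent.H923R2.FP Pool.Agent.H923R2.FZ Pool.Agent.N300.UN

theorem t_POU : S_POU := by
  intro X _ _ ω hω
  obtain ⟨t, -, htf, htc⟩ := finite_cover_balls_of_compact (isCompact_univ (X := X)) hω
  obtain ⟨N, p, hp⟩ : ∃ (N : ℕ) (p : Fin N → X), ∀ x ∈ t, ∃ j, p j = x := by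
    obtain ⟨N, p, hp⟩ := htf.fin_param
    exact ⟨N, p, fun x hx => by
      have : x ∈ Set.range p := hp.2 ▸ hx
      exact this⟩
  let g : Fin N → X → ℝ := fun j x => max 0 (ω - dist x (p j))
  have gc : ∀ j, Continuous (g j) := by
    intro j
    fun_prop
  have g0 : ∀ j x, 0 ≤ g j x := fun j x => le_max_left _ _
  have gs : ∀ j x, g j x ≠ 0 → dist x (p j) < ω := by
    intro j x hx
    by_contra hcon
    apply hx
    exact max_eq_left (by linarith [not_lt.mp hcon])
  have gp : ∀ j x, dist x (p j) < ω → 0 < g j x := by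
    intro j x hx
    exact lt_max_of_lt_right (by linarith)
  let G : X → ℝ := fun x => ∑ j, g j x ^ 2
  have Gc : Continuous G := by
    apply continuous_finsetSum
    intro j _
    exact (gc j).pow 2
  have Gp : ∀ x, 0 < G x := by
    intro x
    have hx := htc (Set.mem_univ x)
    simp only [Set.mem_iUnion, Metric.mem_ball] at hx
    obtain ⟨y, hy, hxy⟩ := hx
    obtain ⟨j, rfl⟩ := hp y hy
    have h1 := gp j x hxy
    have h2 : g j x ^ 2 ≤ G x :=
      Finset.single_le_sum (f := fun j => g j x ^ 2) (fun j _ => sq_nonneg _) (Finset.mem_univ j)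
    have h3 : 0 < g j x ^ 2 := by positivity
    linarith
  have hs : ∀ x, ∑ j, (g j x / Real.sqrt (G x)) ^ 2 = 1 := by
    intro x
    have h1 : ∀ j, (g j x / Real.sqrt (G x)) ^ 2 = g j x ^ 2 / G x := by
      intro j
      rw [div_pow, Real.sq_sqrt (Gp x).le]
    rw [Finset.sum_congr rfl fun j _ => h1 j, ← Finset.sum_div]
    exact div_self (Gp x).ne'
  refine ⟨N, p, fun j => ⟨fun x => g j x / Real.sqrt (G x),
    (gc j).div Gc.sqrt fun x => (Real.sqrt_pos.mpr (Gp x)).ne'⟩, ?_, ?_, ?_, ?_⟩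
  · intro j x
    constructor
    · exact div_nonneg (g0 j x) (Real.sqrt_nonneg _)
    · have h1 : (g j x / Real.sqrt (G x)) ^ 2 ≤ 1 := by
        rw [← hs x]
        exact Finset.single_le_sum (f := fun j => (g j x / Real.sqrt (G x)) ^ 2)
          (fun j _ => sq_nonneg _) (Finset.mem_univ j)
      change g j x / Real.sqrt (G x) ≤ 1
      nlinarith [div_nonneg (g0 j x) (Real.sqrt_nonneg (G x))]
  · intro x
    exact hs x
  · intro j x hx
    apply gs
    intro h0
    apply hx
    change g j x / Real.sqrt (G x) = 0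
    rw [h0, zero_div]
  · intro j
    exact div_pos (gp j (p j) (by rw [dist_self]; exact hω)) (Real.sqrt_pos.mpr (Gp _))

section TT

variable {A : Type} [CStarAlgebra A] {τ : A →ₗ[ℂ] ℂ} {X : Type} [MetricSpace X] [CompactSpace X]

lemma tau_real (hF : FTS τ) {a : A} (ha : star a = a) : τ a = ((τ a).re : ℂ) := by
  have h := hF.str a
  rw [ha] at h
  exact (Complex.conj_eq_iff_re.mp h.symm).symm

lemma star_real_smul (c : ℝ) (a : A) : star ((c : ℂ) • a) = (c : ℂ) • star a := by
  rw [star_smul]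
  congr 1
  exact Complex.conj_ofReal c

lemma norm_hom_le (χ : C(X, ℂ) →⋆ₐ[ℂ] A) (F : C(X, ℂ)) {R : ℝ} (hR : 0 ≤ R)
    (hF : ∀ x, ‖F x‖ ≤ R) : ‖χ F‖ ≤ R :=
  (NonUnitalStarAlgHom.norm_apply_le χ F).trans ((ContinuousMap.norm_le F hR).mpr hF)

end TT

theorem t_TT (h12 : S_C12) (h3 : Pool.Agent.N300.UN.S_C3) (hP : S_POU) : S_TT := by
  intro A _ τ S u s hF X _ _ φ ψ hφ hψ hτ hinj ω hω
  obtain ⟨N, p, h, h01, hsum, hsupp, hpos⟩ := hP X ω hω
  have hfts := hF.fts
  have hnt : Nontrivial A := by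
    refine ⟨⟨1, 0, fun h10 => ?_⟩⟩
    have h1 := hfts.one
    rw [h10, map_zero] at h1
    exact zero_ne_one h1
  obtain ⟨H, hH⟩ : ∃ H : Fin N → C(X, ℂ), ∀ j x, H j x = (h j x : ℂ) :=
    ⟨fun j => ⟨fun x => (h j x : ℂ), by fun_prop⟩, fun j x => rfl⟩
  have Hst : ∀ j, star (H j) = H j := by
    intro j
    ext x
    rw [ContinuousMap.star_apply, hH]
    exact Complex.conj_ofReal _
  have hτre : ∀ F : C(X, ℂ), 0 ≤ (τ (φ (star F * F))).re := by
    intro F
    rw [map_mul, map_star]
    exact hfts.nonneg _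
  obtain ⟨m, hm⟩ : ∃ m : Fin N → ℝ, ∀ j, m j = (τ (φ (H j * H j))).re := ⟨_, fun j => rfl⟩
  have hm' : ∀ j, τ (φ (H j * H j)) = (m j : ℂ) := by
    intro j
    rw [hm]
    apply tau_real hfts
    rw [← map_star, star_mul, Hst]
  have hmpos : ∀ j, 0 < m j := by
    intro j
    have h1 := hτre (H j)
    rw [Hst, ← hm] at h1
    refine lt_of_le_of_ne h1 fun h0 => ?_
    have h2 : (τ (star (φ (H j)) * φ (H j))).re = 0 := by
      rw [← map_star, ← map_mul, Hst, ← hm, ← h0]
    have h3 := hfts.faith _ h2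
    have h4 : H j = 0 := by
      apply hinj
      rw [h3, map_zero]
    have h5 := hH j (p j)
    rw [h4] at h5
    have h6 : (h j (p j) : ℂ) = 0 := h5.symm
    have h7 := hpos j
    rw [Complex.ofReal_eq_zero.mp h6] at h7
    exact lt_irrefl _ h7
  obtain ⟨c, hc⟩ : ∃ c : Fin N → ℝ, ∀ j, c j = 1 / Real.sqrt (m j) := ⟨_, fun j => rfl⟩
  have hc2 : ∀ j, (c j : ℂ) * (c j : ℂ) = ((1 / m j : ℝ) : ℂ) := by
    intro j
    rw [← Complex.ofReal_mul, hc]
    congr 1
    rw [div_mul_div_comm, one_mul, Real.mul_self_sqrt (hmpos j).le]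
  have hcm : ∀ j, (m j : ℂ) * ((1 / m j : ℝ) : ℂ) = 1 := by
    intro j
    rw [← Complex.ofReal_mul, mul_one_div_cancel (hmpos j).ne', Complex.ofReal_one]
  -- the elements
  obtain ⟨x, hx⟩ : ∃ x : Fin N → A, ∀ j, x j = (c j : ℂ) • φ (H j) := ⟨_, fun j => rfl⟩
  obtain ⟨y, hy⟩ : ∃ y : Fin N → A, ∀ j, y j = ψ (H j) := ⟨_, fun j => rfl⟩
  have hxS : ∀ j, x j ∈ S := fun j => by
    rw [hx]
    exact S.smul_mem (hφ _) _
  have hyS : ∀ j, y j ∈ S := fun j => by
    rw [hy]
    exact hψ _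
  -- sums of the squares
  have hone : ∑ j, H j * H j = 1 := by
    ext t
    rw [ContinuousMap.coe_sum, Finset.sum_apply]
    simp only [ContinuousMap.mul_apply, hH, ContinuousMap.one_apply]
    rw [← Complex.ofReal_one, ← hsum t, Complex.ofReal_sum]
    refine Finset.sum_congr rfl fun j _ => ?_
    push_cast
    ring
  have hL1 : ∑ a, τ (star (x a) * x a) • (star (y a) * y a) = 1 := by
    have e1 : ∀ a, τ (star (x a) * x a) • (star (y a) * y a) = ψ (H a * H a) := by
      intro a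
      rw [hx, hy, star_real_smul, smul_mul_smul_comm, map_smul, ← map_star, ← map_mul, Hst, hm',
        hc2, smul_eq_mul, mul_comm, hcm, one_smul, ← map_star, ← map_mul, Hst]
    rw [Finset.sum_congr rfl fun a _ => e1 a, ← map_sum, hone, map_one]
  have hM1 : ∑ a, τ (y a * star (y a)) • (x a * star (x a)) = 1 := by
    have e1 : ∀ a, τ (y a * star (y a)) • (x a * star (x a)) = φ (H a * H a) := by
      intro a
      rw [hx, hy, star_real_smul, smul_mul_smul_comm, ← map_star, ← map_mul, Hst, ← hτ, hm',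
        hc2, smul_smul, hcm, one_smul, ← map_star, ← map_mul, Hst]
    rw [Finset.sum_congr rfl fun a _ => e1 a, ← map_sum, hone, map_one]
  have hnL1 : nL τ x y = 1 := by
    unfold nL
    rw [hL1, norm_one, Real.sqrt_one]
  have hnM1 : nM τ x y = 1 := by
    unfold nM
    rw [hM1, norm_one, Real.sqrt_one]
  refine ⟨RT u s (fun j : Fin N => (j : ℕ)) x y, ?_, ?_, ?_⟩
  · have := (h12 A τ S u s hF (Fin N) (fun j => (j : ℕ)) Fin.val_injective x y x y hxS hyS hxS
      hyS).1
    rw [hnL1, hnM1] at this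
    linarith
  · intro f r hr hf
    obtain ⟨D, hD⟩ : ∃ D : Fin N → C(X, ℂ), ∀ j, D j = f - algebraMap ℂ C(X, ℂ) (f (p j)) :=
      ⟨_, fun j => rfl⟩
    have hDx : ∀ j t, D j t = f t - f (p j) := by
      intro j t
      rw [hD]
      rfl
    obtain ⟨K, hK⟩ : ∃ K : Fin N → C(X, ℂ), ∀ j, K j = star (D j * H j) * (D j * H j) :=
      ⟨_, fun j => rfl⟩
    have hKx : ∀ j t, K j t = ((‖f t - f (p j)‖ ^ 2 * h j t ^ 2 : ℝ) : ℂ) := by
      intro j t
      rw [hK]
      simp only [ContinuousMap.mul_apply, ContinuousMap.star_apply, hDx, hH]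
      rw [star_mul]
      have e1 : star ((h j t : ℂ)) = (h j t : ℂ) := Complex.conj_ofReal _
      have e2 : star (f t - f (p j)) * (f t - f (p j)) = ((‖f t - f (p j)‖ ^ 2 : ℝ) : ℂ) := by
        have := Complex.conj_mul' (f t - f (p j))
        rw [Complex.ofReal_pow, ← this]
        rfl
      rw [e1]
      push_cast
      have e3 : (h j t : ℂ) * star (f t - f (p j)) * ((f t - f (p j)) * (h j t : ℂ)) =
          (star (f t - f (p j)) * (f t - f (p j))) * (h j t : ℂ) ^ 2 := by ring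
      rw [e3, e2]
      push_cast
      ring
    have hKst : ∀ j, star (K j) = K j := by
      intro j
      ext t
      rw [ContinuousMap.star_apply, hKx]
      exact Complex.conj_ofReal _
    have hle : ∀ j t, ‖f t - f (p j)‖ ^ 2 * h j t ^ 2 ≤ r ^ 2 * h j t ^ 2 := by
      intro j t
      by_cases h0 : h j t = 0
      · rw [h0]
        simp
      · apply mul_le_mul_of_nonneg_right _ (sq_nonneg _)
        exact pow_le_pow_left₀ (norm_nonneg _) (hf _ _ (hsupp j t h0)) 2
    obtain ⟨q, hq⟩ : ∃ q : Fin N → ℝ, ∀ j, q j = (τ (φ (K j))).re := ⟨_, fun j => rfl⟩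
    have hq' : ∀ j, τ (φ (K j)) = (q j : ℂ) := by
      intro j
      rw [hq]
      apply tau_real hfts
      rw [← map_star, hKst]
    have hq0 : ∀ j, 0 ≤ q j := by
      intro j
      rw [hq, hK]
      exact hτre _
    have hqr : ∀ j, q j ≤ r ^ 2 * m j := by
      intro j
      obtain ⟨W, hW⟩ : ∃ W : C(X, ℂ), ∀ t, W t =
          ((Real.sqrt (max 0 (r ^ 2 - ‖f t - f (p j)‖ ^ 2)) * h j t : ℝ) : ℂ) :=
        ⟨⟨fun t => ((Real.sqrt (max 0 (r ^ 2 - ‖f t - f (p j)‖ ^ 2)) * h j t : ℝ) : ℂ),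
          by fun_prop⟩, fun t => rfl⟩
      have e1 : star W * W = ((r ^ 2 : ℝ) : ℂ) • (H j * H j) - K j := by
        ext t
        simp only [ContinuousMap.mul_apply, ContinuousMap.star_apply, ContinuousMap.sub_apply,
          ContinuousMap.smul_apply, smul_eq_mul, hKx, hW, hH]
        have e2 : star (((Real.sqrt (max 0 (r ^ 2 - ‖f t - f (p j)‖ ^ 2)) * h j t : ℝ)) : ℂ) =
            (((Real.sqrt (max 0 (r ^ 2 - ‖f t - f (p j)‖ ^ 2)) * h j t : ℝ)) : ℂ) :=
          Complex.conj_ofReal _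
        rw [e2, ← Complex.ofReal_mul, ← Complex.ofReal_mul, ← Complex.ofReal_mul,
          ← Complex.ofReal_sub]
        congr 1
        have e3 : Real.sqrt (max 0 (r ^ 2 - ‖f t - f (p j)‖ ^ 2)) * h j t *
            (Real.sqrt (max 0 (r ^ 2 - ‖f t - f (p j)‖ ^ 2)) * h j t) =
            (Real.sqrt (max 0 (r ^ 2 - ‖f t - f (p j)‖ ^ 2)) *
              Real.sqrt (max 0 (r ^ 2 - ‖f t - f (p j)‖ ^ 2))) * h j t ^ 2 := by ring
        rw [e3, Real.mul_self_sqrt (le_max_left _ _)]
        by_cases h0 : h j t = 0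
        · rw [h0]
          ring
        · have h1 := pow_le_pow_left₀ (norm_nonneg _) (hf _ _ (hsupp j t h0)) 2
          rw [max_eq_right (by linarith)]
          ring
      have e2 := hτre W
      rw [e1, map_sub, map_sub, map_smul, map_smul, hm', hq'] at e2
      simp only [smul_eq_mul, Complex.sub_re] at e2
      rw [← Complex.ofReal_mul, Complex.ofReal_re, Complex.ofReal_re] at e2
      linarith
    -- two bounds
    have bound1 : ∀ (χ : C(X, ℂ) →⋆ₐ[ℂ] A) (b : Fin N → ℝ), (∀ j, 0 ≤ b j) →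
        (∀ j, b j ≤ r ^ 2) → ‖∑ j, (b j : ℂ) • χ (H j * H j)‖ ≤ r ^ 2 := by
      intro χ b hb0 hb
      have e1 : ∑ j, (b j : ℂ) • χ (H j * H j) = χ (∑ j, (b j : ℂ) • (H j * H j)) := by
        rw [map_sum]
        exact Finset.sum_congr rfl fun j _ => (map_smul χ _ _).symm
      rw [e1]
      apply norm_hom_le χ _ (by positivity)
      intro t
      have e2 : (∑ j, (b j : ℂ) • (H j * H j)) t = ((∑ j, b j * h j t ^ 2 : ℝ) : ℂ) := by
        rw [ContinuousMap.coe_sum, Finset.sum_apply, Complex.ofReal_sum]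
        refine Finset.sum_congr rfl fun j _ => ?_
        simp only [ContinuousMap.smul_apply, ContinuousMap.mul_apply, hH, smul_eq_mul]
        push_cast
        ring
      rw [e2, Complex.norm_real, Real.norm_of_nonneg
        (Finset.sum_nonneg fun j _ => mul_nonneg (hb0 j) (sq_nonneg _))]
      calc ∑ j, b j * h j t ^ 2 ≤ ∑ j, r ^ 2 * h j t ^ 2 :=
            Finset.sum_le_sum fun j _ => mul_le_mul_of_nonneg_right (hb j) (sq_nonneg _)
        _ = r ^ 2 := by rw [← Finset.mul_sum, hsum, mul_one]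
    have bound2 : ∀ (χ : C(X, ℂ) →⋆ₐ[ℂ] A), ‖∑ j, χ (K j)‖ ≤ r ^ 2 := by
      intro χ
      rw [← map_sum]
      apply norm_hom_le χ _ (by positivity)
      intro t
      have e2 : (∑ j, K j) t = ((∑ j, ‖f t - f (p j)‖ ^ 2 * h j t ^ 2 : ℝ) : ℂ) := by
        rw [ContinuousMap.coe_sum, Finset.sum_apply, Complex.ofReal_sum]
        exact Finset.sum_congr rfl fun j _ => hKx j t
      rw [e2, Complex.norm_real, Real.norm_of_nonneg
        (Finset.sum_nonneg fun j _ => by positivity)]
      calc ∑ j, ‖f t - f (p j)‖ ^ 2 * h j t ^ 2 ≤ ∑ j, r ^ 2 * h j t ^ 2 :=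
            Finset.sum_le_sum fun j _ => hle j t
        _ = r ^ 2 := by rw [← Finset.mul_sum, hsum, mul_one]
    have hsqrt : ∀ z : ℝ, z ≤ r ^ 2 → Real.sqrt z ≤ r := by
      intro z hz
      calc Real.sqrt z ≤ Real.sqrt (r ^ 2) := Real.sqrt_le_sqrt hz
        _ = r := Real.sqrt_sq hr
    obtain ⟨x', hx'⟩ : ∃ x' : Fin N → A, ∀ j, x' j = φ (D j) * x j := ⟨_, fun j => rfl⟩
    obtain ⟨y', hy'⟩ : ∃ y' : Fin N → A, ∀ j, y' j = y j * ψ (D j) := ⟨_, fun j => rfl⟩
    have hx'S : ∀ j, x' j ∈ S := fun j => by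
      rw [hx']
      exact S.mul_mem (hφ _) (hxS j)
    have hy'S : ∀ j, y' j ∈ S := fun j => by
      rw [hy']
      exact S.mul_mem (hyS j) (hψ _)
    have hx'1 : ∀ j, x' j = (c j : ℂ) • φ (D j * H j) := by
      intro j
      rw [hx', hx, mul_smul_comm, ← map_mul]
    have hy'1 : ∀ j, y' j = ψ (D j * H j) := by
      intro j
      rw [hy', hy, ← map_mul, mul_comm]
    have hK' : ∀ j, (D j * H j) * star (D j * H j) = K j := by
      intro j
      rw [hK, mul_comm]
    have xx1 : ∀ j, star (x' j) * x' j = ((1 / m j : ℝ) : ℂ) • φ (K j) := by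
      intro j
      rw [hx'1, star_real_smul, smul_mul_smul_comm, hc2, ← map_star, ← map_mul, ← hK]
    have xx2 : ∀ j, x' j * star (x' j) = ((1 / m j : ℝ) : ℂ) • φ (K j) := by
      intro j
      rw [hx'1, star_real_smul, smul_mul_smul_comm, hc2, ← map_star, ← map_mul, hK']
    have yy1 : ∀ j, star (y' j) * y' j = ψ (K j) := by
      intro j
      rw [hy'1, ← map_star, ← map_mul, ← hK]
    have yy2 : ∀ j, y' j * star (y' j) = ψ (K j) := by
      intro j
      rw [hy'1, ← map_star, ← map_mul, hK']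
    have x1 : ∀ j, star (x j) * x j = ((1 / m j : ℝ) : ℂ) • φ (H j * H j) := by
      intro j
      rw [hx, star_real_smul, smul_mul_smul_comm, hc2, ← map_star, ← map_mul, Hst]
    have x2 : ∀ j, x j * star (x j) = ((1 / m j : ℝ) : ℂ) • φ (H j * H j) := by
      intro j
      rw [hx, star_real_smul, smul_mul_smul_comm, hc2, ← map_star, ← map_mul, Hst]
    have y1 : ∀ j, star (y j) * y j = ψ (H j * H j) := by
      intro j
      rw [hy, ← map_star, ← map_mul, Hst]
    have y2 : ∀ j, y j * star (y j) = ψ (H j * H j) := by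
      intro j
      rw [hy, ← map_star, ← map_mul, Hst]
    have hqm : ∀ j, 0 ≤ q j / m j ∧ q j / m j ≤ r ^ 2 := by
      intro j
      refine ⟨div_nonneg (hq0 j) (hmpos j).le, ?_⟩
      rw [div_le_iff₀ (hmpos j)]
      exact hqr j
    have n1 : nL τ x' y ≤ r := by
      unfold nL
      apply hsqrt
      have e1 : ∀ j, τ (star (x' j) * x' j) • (star (y j) * y j) =
          ((q j / m j : ℝ) : ℂ) • ψ (H j * H j) := by
        intro j
        rw [xx1, y1, map_smul, hq', smul_eq_mul, ← Complex.ofReal_mul]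
        congr 2
        ring
      rw [Finset.sum_congr rfl fun j _ => e1 j]
      exact bound1 ψ _ (fun j => (hqm j).1) fun j => (hqm j).2
    have n2 : nM τ x' y ≤ r := by
      unfold nM
      apply hsqrt
      have e1 : ∀ j, τ (y j * star (y j)) • (x' j * star (x' j)) = φ (K j) := by
        intro j
        rw [xx2, y2, ← hτ, hm', smul_smul, hcm, one_smul]
      rw [Finset.sum_congr rfl fun j _ => e1 j]
      exact bound2 φ
    have n3 : nL τ x y' ≤ r := by
      unfold nL
      apply hsqrt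
      have e1 : ∀ j, τ (star (x j) * x j) • (star (y' j) * y' j) = ψ (K j) := by
        intro j
        rw [x1, yy1, map_smul, hm', smul_eq_mul, mul_comm, hcm, one_smul]
      rw [Finset.sum_congr rfl fun j _ => e1 j]
      exact bound2 ψ
    have n4 : nM τ x y' ≤ r := by
      unfold nM
      apply hsqrt
      have e1 : ∀ j, τ (y' j * star (y' j)) • (x j * star (x j)) =
          ((q j / m j : ℝ) : ℂ) • φ (H j * H j) := by
        intro j
        rw [x2, yy2, ← hτ, hq', smul_smul, ← Complex.ofReal_mul]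
        congr 2
        ring
      rw [Finset.sum_congr rfl fun j _ => e1 j]
      exact bound1 φ _ (fun j => (hqm j).1) fun j => (hqm j).2
    have hcom : φ f * RT u s (fun j : Fin N => (j : ℕ)) x y -
        RT u s (fun j : Fin N => (j : ℕ)) x y * ψ f =
        RT u s (fun j : Fin N => (j : ℕ)) x' y - RT u s (fun j : Fin N => (j : ℕ)) x y' := by
      unfold RT
      rw [Finset.mul_sum, Finset.sum_mul, ← Finset.sum_sub_distrib, ← Finset.sum_sub_distrib]
      refine Finset.sum_congr rfl fun j _ => ?_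
      rw [hx', hy', hD, map_sub, map_sub, AlgHomClass.commutes, AlgHomClass.commutes]
      have e1 := Algebra.commutes (f (p j))
        (x j * ((u : A) ^ ((j : ℕ) + 1) * s * (u : A) ^ ((j : ℕ) + 1)) * y j)
      simp only [sub_mul, mul_sub, ← mul_assoc] at e1 ⊢
      rw [e1]
      abel
    rw [hcom]
    have b1 := (h12 A τ S u s hF (Fin N) (fun j => (j : ℕ)) Fin.val_injective x' y x' y hx'S hyS
      hx'S hyS).1
    have b2 := (h12 A τ S u s hF (Fin N) (fun j => (j : ℕ)) Fin.val_injective x y' x y' hxS hy'S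
      hxS hy'S).1
    have b3 := norm_sub_le (RT u s (fun j : Fin N => (j : ℕ)) x' y)
      (RT u s (fun j : Fin N => (j : ℕ)) x y')
    linarith
  · exact h3 A τ S u s hF (Fin N) (fun j => (j : ℕ)) Fin.val_injective x y hxS hyS hL1 hM1

end Pool.Agent.N194.UN
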